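import Pool.Agent.N360.JN.Fin

set_option autoImplicit false

/-!
For every `n ≥ 4` a labelled convex polytope of dimension `n - 3` supports a minimal free
resolution of the Stanley-Reisner ideal `J_n` of the `n`-cycle.
-/

namespace Pool.Agent.Results.MP_b816f8_co.PolytopalAllN

open Set

/-- `{i, j}` is a diagonal of the `n`-gon: `i ≠ j` and `j - i` is not congruent to `1` or `-1`
modulo `n`. -/
def IsDiagonal {n : ℕ} (i j : Fin n) : Prop :=
  i ≠ j ∧ ¬ ((j : ℤ) - (i : ℤ) ≡ 1 [ZMOD n]) ∧ ¬ ((j : ℤ) - (i : ℤ) ≡ -1 [ZMOD n])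

/-- The minimal generators `x_i x_j` (`i < j`, `{i, j}` a diagonal) of the ideal `J_n`. -/
def Gen (n : ℕ) : Type := {p : Fin n × Fin n // p.1 < p.2 ∧ IsDiagonal p.1 p.2}

/-- The exponent vector of the generator `x_i x_j`. -/
def expo {n : ℕ} (g : Gen n) : Fin n → ℕ := fun k => if k = g.1.1 ∨ k = g.1.2 then 1 else 0

/-- The nonempty faces of the convex polytope `P`, including `P` itself. -/
def IsFace {d : ℕ} (P F : Set (EuclideanSpace ℝ (Fin d))) : Prop :=
  F.Nonempty ∧ IsExposed ℝ P F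

/-- The lcm label of a face `F`: the `k`-th exponent is the maximum of the `k`-th exponents of the
labels of the vertices lying in `F`. -/
noncomputable def label {n d : ℕ} (vert : Gen n → EuclideanSpace ℝ (Fin d))
    (F : Set (EuclideanSpace ℝ (Fin d))) : Fin n → ℕ :=
  fun k => sSup {e | ∃ g : Gen n, vert g ∈ F ∧ e = expo g k}

/-- The convex hull of the points `vert g`. -/
def hull {n d : ℕ} (vert : Gen n → EuclideanSpace ℝ (Fin d)) : Set (EuclideanSpace ℝ (Fin d)) :=
  convexHull ℝ (range vert)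

/-- The subcomplex of all faces with label `≤ σ`, as the union of these faces. -/
def sub {n d : ℕ} (vert : Gen n → EuclideanSpace ℝ (Fin d)) (σ : Fin n → ℕ) :
    Set (EuclideanSpace ℝ (Fin d)) :=
  {x | ∃ F, IsFace (hull vert) F ∧ label vert F ≤ σ ∧ x ∈ F}

/-- The points `vert g`, `g` a minimal generator of `J_n`, are the pairwise different vertices of
their convex hull, and this hull has nonempty interior in `ℝ^d`: it is a `d`-dimensional convex
polytope whose vertices are labelled by the minimal generators of `J_n`. -/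
def IsLabelledPolytope {n d : ℕ} (vert : Gen n → EuclideanSpace ℝ (Fin d)) : Prop :=
  Function.Injective vert ∧ (hull vert).extremePoints ℝ = range vert ∧
    (interior (hull vert)).Nonempty

/-- Every subcomplex of faces with label `≤ σ` is empty or contractible (hence empty or
`K`-acyclic for every field `K`): the labelled polytope supports a free resolution of `J_n`. -/
def SupportsResolution {n d : ℕ} (vert : Gen n → EuclideanSpace ℝ (Fin d)) : Prop :=
  ∀ σ : Fin n → ℕ, sub vert σ = ∅ ∨ ContractibleSpace (sub vert σ)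

/-- Minimality: faces `F ⊊ G` have different labels. -/
def IsMinimal {n d : ℕ} (vert : Gen n → EuclideanSpace ℝ (Fin d)) : Prop :=
  ∀ F G, IsFace (hull vert) F → IsFace (hull vert) G → F ⊂ G → label vert F ≠ label vert G

open Pool.Agent.N360.JN in
theorem dp_iff {n : ℕ} (p q : Fin n) : (p < q ∧ IsDiagonal p q) ↔ DP n p q := by
  have hp := p.2
  have hq := q.2
  unfold IsDiagonal DP
  constructor
  · rintro ⟨h1, h2, h3, h4⟩
    have h1' : (p : ℕ) < q := h1
    refine ⟨?_, hq, ?_⟩
    · by_contra h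
      have e : (q : ℤ) - (p : ℤ) = 1 := by omega
      exact h3 (by rw [e])
    · rintro ⟨h5, h6⟩
      apply h4
      have e : (q : ℤ) - (p : ℤ) = -1 + n := by omega
      rw [e]
      exact Int.add_modEq_right.trans (Int.ModEq.refl _)
  · rintro ⟨h1, -, h3⟩
    refine ⟨by rw [Fin.lt_def]; omega, ?_, ?_, ?_⟩
    · intro h
      have : (p : ℕ) = q := by rw [h]
      omega
    · intro h
      obtain ⟨k, hk⟩ := h.dvd
      have hk0 : k < 0 := by
        by_contra hcon
        have : 0 ≤ (n : ℤ) * k := mul_nonneg (by omega) (by omega)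
        omega
      have : (n : ℤ) * k ≤ n * (-1) := mul_le_mul_of_nonneg_left (by omega) (by omega)
      omega
    · intro h
      obtain ⟨k, hk⟩ := h.dvd
      have hk0 : k < 0 := by
        by_contra hcon
        have : 0 ≤ (n : ℤ) * k := mul_nonneg (by omega) (by omega)
        omega
      have : (n : ℤ) * k ≤ n * (-1) := mul_le_mul_of_nonneg_left (by omega) (by omega)
      have hk1 : (-1 : ℤ) - ((q : ℤ) - p) = -n := by
        by_contra hcon
        have : (n : ℤ) * k ≠ n * (-1) := by omega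
        have hk2 : k ≤ -2 := by
          by_contra h5
          have : k = -1 := by omega
          subst this
          omega
        have : (n : ℤ) * k ≤ n * (-2) := mul_le_mul_of_nonneg_left (by omega) (by omega)
        omega
      apply h3
      omega

open Pool.Agent.N360.JN in
/-- the polytope -/
noncomputable def vert0 (n : ℕ) (g : Gen n) : EuclideanSpace ℝ (Fin (n - 3)) :=
  vv n (min (rk n g.1.1) (rk n g.1.2)) (max (rk n g.1.1) (rk n g.1.2))

open Pool.Agent.N360.JN in
theorem gen_dg {n : ℕ} (g : Gen n) :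
    Dg n (min (rk n g.1.1) (rk n g.1.2)) (max (rk n g.1.1) (rk n g.1.2)) :=
  dg_of_dp ((dp_iff _ _).1 g.2)

open Pool.Agent.N360.JN in
theorem exists_gen {n i j : ℕ} (h : Dg n i j) :
    ∃ g : Gen n, min (rk n g.1.1) (rk n g.1.2) = i ∧ max (rk n g.1.1) (rk n g.1.2) = j := by
  obtain ⟨p, q, hpq, h1, h2⟩ := dp_of_dg h
  have hp : p < n := by have := hpq.1; have := hpq.2.1; omega
  exact ⟨⟨(⟨p, hp⟩, ⟨q, hpq.2.1⟩), (dp_iff _ _).2 hpq⟩, h1, h2⟩

open Pool.Agent.N360.JN in
theorem range_vert0 (n : ℕ) : range (vert0 n) = Vt n := by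
  ext x
  constructor
  · rintro ⟨g, rfl⟩
    exact ⟨_, _, gen_dg g, rfl⟩
  · rintro ⟨i, j, hij, rfl⟩
    obtain ⟨g, h1, h2⟩ := exists_gen hij
    refine ⟨g, ?_⟩
    unfold vert0
    rw [h1, h2]

open Pool.Agent.N360.JN in
theorem hull_vert0 (n : ℕ) : hull (vert0 n) = PP n := by
  unfold hull PP
  rw [range_vert0]

theorem expo_le_one {n : ℕ} (g : Gen n) (k : Fin n) : expo g k ≤ 1 := by
  unfold expo; split_ifs <;> omega

theorem bdd {n d : ℕ} (vert : Gen n → EuclideanSpace ℝ (Fin d))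
    (F : Set (EuclideanSpace ℝ (Fin d))) (k : Fin n) :
    BddAbove {e | ∃ g : Gen n, vert g ∈ F ∧ e = expo g k} :=
  ⟨1, by rintro e ⟨g, -, rfl⟩; exact expo_le_one g k⟩

theorem le_label {n d : ℕ} (vert : Gen n → EuclideanSpace ℝ (Fin d))
    {F : Set (EuclideanSpace ℝ (Fin d))} {g : Gen n} (hg : vert g ∈ F) (k : Fin n) :
    expo g k ≤ label vert F k := le_csSup (bdd vert F k) ⟨g, hg, rfl⟩

theorem exists_of_label {n d : ℕ} (vert : Gen n → EuclideanSpace ℝ (Fin d))
    {F : Set (EuclideanSpace ℝ (Fin d))} {k : Fin n} (h : 1 ≤ label vert F k) :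
    ∃ g : Gen n, vert g ∈ F ∧ (k = g.1.1 ∨ k = g.1.2) := by
  have hne : {e | ∃ g : Gen n, vert g ∈ F ∧ e = expo g k}.Nonempty := by
    by_contra hcon
    rw [not_nonempty_iff_eq_empty] at hcon
    unfold label at h
    rw [hcon] at h
    simp at h
  obtain ⟨g, hg, he⟩ := Nat.sSup_mem hne (bdd vert F k)
  refine ⟨g, hg, ?_⟩
  by_contra hcon
  have : expo g k = 0 := if_neg hcon
  have h2 : label vert F k = 0 := he.trans this
  omega

theorem label_le_iff {n d : ℕ} (vert : Gen n → EuclideanSpace ℝ (Fin d))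
    {F : Set (EuclideanSpace ℝ (Fin d))} {σ : Fin n → ℕ} :
    label vert F ≤ σ ↔ ∀ g : Gen n, vert g ∈ F → 1 ≤ σ g.1.1 ∧ 1 ≤ σ g.1.2 := by
  constructor
  · intro h g hg
    have h1 := (le_label vert hg g.1.1).trans (h g.1.1)
    have h2 := (le_label vert hg g.1.2).trans (h g.1.2)
    have e1 : expo g g.1.1 = 1 := if_pos (Or.inl rfl)
    have e2 : expo g g.1.2 = 1 := if_pos (Or.inr rfl)
    rw [e1] at h1
    rw [e2] at h2
    exact ⟨h1, h2⟩
  · intro h k
    by_contra hcon
    have hcon' : σ k < label vert F k := not_le.1 hcon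
    obtain ⟨g, hg, hk⟩ := exists_of_label vert (Nat.one_le_of_lt hcon')
    have hle : label vert F k ≤ 1 := by
      unfold label
      apply csSup_le
      · exact ⟨_, g, hg, rfl⟩
      · rintro e ⟨g', -, rfl⟩
        exact expo_le_one g' k
    have h1 := h g hg
    rcases hk with rfl | rfl
    · omega
    · omega

open Pool.Agent.N360.JN in
/-- condition on ranks -/
def onRank (n : ℕ) (σ : Fin n → ℕ) (r : ℕ) : Prop := ∀ k : Fin n, rk n k = r → 1 ≤ σ k

open Pool.Agent.N360.JN in
theorem gen_cond {n : ℕ} (σ : Fin n → ℕ) (g : Gen n) :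
    (1 ≤ σ g.1.1 ∧ 1 ≤ σ g.1.2) ↔ (onRank n σ (min (rk n g.1.1) (rk n g.1.2)) ∧
      onRank n σ (max (rk n g.1.1) (rk n g.1.2))) := by
  have key : ∀ k : Fin n, onRank n σ (rk n k) ↔ 1 ≤ σ k := by
    intro k
    constructor
    · exact fun h => h k rfl
    · intro h k' hk'
      have : k' = k := Fin.ext (rk_inj k'.2 k.2 hk')
      rw [this]
      exact h
  rcases le_total (rk n g.1.1) (rk n g.1.2) with h | h
  · rw [min_eq_left h, max_eq_right h, key, key]
  · rw [min_eq_right h, max_eq_left h, key, key]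
    exact and_comm

open Pool.Agent.N360.JN in
theorem label_le_iff' {n : ℕ} {F : Set (EuclideanSpace ℝ (Fin (n - 3)))} {σ : Fin n → ℕ} :
    label (vert0 n) F ≤ σ ↔
      ∀ i j, Dg n i j → vv n i j ∈ F → onRank n σ i ∧ onRank n σ j := by
  rw [label_le_iff]
  constructor
  · intro h i j hij hF
    obtain ⟨g, rfl, rfl⟩ := exists_gen hij
    exact (gen_cond σ g).1 (h g hF)
  · intro h g hg
    exact (gen_cond σ g).2 (h _ _ (gen_dg g) hg)

open Pool.Agent.N360.JN in
theorem sub_eq {n : ℕ} (σ : Fin n → ℕ) : sub (vert0 n) σ = Xs n (onRank n σ) := by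
  ext x
  constructor
  · rintro ⟨F, ⟨hne, hF⟩, hlab, hx⟩
    rw [hull_vert0] at hF
    obtain ⟨l, c, h1, rfl⟩ := exists_of_exposed hF hne
    rw [label_le_iff'] at hlab
    exact ⟨l, c, h1, hx.1, hx.2, fun i j hij h => hlab i j hij ⟨vv_mem hij, h⟩⟩
  · rintro ⟨l, c, h1, h2, h3, h4⟩
    refine ⟨{y | y ∈ PP n ∧ l y = c}, ⟨⟨x, h2, h3⟩, ?_⟩, ?_, ⟨h2, h3⟩⟩
    · rw [hull_vert0]
      exact isExposed_of h1 h2 h3
    · rw [label_le_iff']
      exact fun i j hij h => h4 i j hij h.2

open Pool.Agent.N360.JN in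
theorem resolution {n : ℕ} (hn : 4 ≤ n) : SupportsResolution (vert0 n) := by
  intro σ
  rw [sub_eq]
  rcases (Xs n (onRank n σ)).eq_empty_or_nonempty with h | h
  · exact Or.inl h
  right
  by_cases hmiss : ∃ r, 1 ≤ r ∧ r ≤ n ∧ ¬ onRank n σ r
  · exact xs_contr hn hmiss h
  · push Not at hmiss
    have h1 : Xs n (onRank n σ) = PP n := by
      ext x
      constructor
      · rintro ⟨l, c, -, h2, -⟩
        exact h2
      · intro hx
        refine ⟨0, 0, fun i j _ => le_rfl, hx, rfl, fun i j hij _ => ⟨?_, ?_⟩⟩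
        · exact hmiss i hij.le1 (by have := hij.le2; omega)
        · exact hmiss j (by have := hij.le3; omega) hij.le4
    rw [h1] at h ⊢
    exact (PP_convex n).contractibleSpace h

open Pool.Agent.N360.JN in
theorem minimality {n : ℕ} (hn : 4 ≤ n) : IsMinimal (vert0 n) := by
  rintro F G ⟨hFne, hF⟩ ⟨hGne, hG⟩ hFG hlab
  rw [hull_vert0] at hF hG
  obtain ⟨l, c, h1, rfl⟩ := exists_of_exposed hF hFne
  obtain ⟨l', c', h1', rfl⟩ := exists_of_exposed hG hGne
  have hvert : ∀ (l : StrongDual ℝ (E (n - 3))) (c : ℝ), (∀ i j, Dg n i j → l (vv n i j) ≤ c) →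
      {y | y ∈ PP n ∧ l y = c}.Nonempty → ∃ i j, Dg n i j ∧ l (vv n i j) = c := by
    rintro l c h1 ⟨x, hx, hlx⟩
    obtain ⟨T, hTW, ⟨y, hy⟩, -, hT⟩ := exists_support hx
    obtain ⟨i, j, hij, rfl⟩ := hTW hy
    exact ⟨i, j, hij, hT l c (by rintro _ ⟨i, j, hij, rfl⟩; exact h1 i j hij) hlx _ hy⟩
  obtain ⟨i0, j0, hij0, h0⟩ := hvert l c h1 hFne
  obtain ⟨i1, j1, hij1, h01⟩ := hvert l' c' h1' hGne
  obtain ⟨a, b, hpos, hz⟩ := pos_of_face hn h1 hij0 h0
  obtain ⟨a', b', hpos', hz'⟩ := pos_of_face hn h1' hij1 h01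
  have hmin := minimal hpos hpos' (by
    intro i j hij e1 e2
    have h2 : vv n i j ∈ {y | y ∈ PP n ∧ l y = c} := ⟨vv_mem hij, (hz i j hij).2 ⟨e1, e2⟩⟩
    exact (hz' i j hij).1 (hFG.1 h2).2) (by
    intro i j hij e1 e2 r hr
    have hmem : vv n i j ∈ {y | y ∈ PP n ∧ l' y = c'} := ⟨vv_mem hij, (hz' i j hij).2 ⟨e1, e2⟩⟩
    obtain ⟨g, hg1, hg2⟩ := exists_gen hij
    have hgv : vert0 n g = vv n i j := by unfold vert0; rw [hg1, hg2]
    obtain ⟨k, hk, hkr⟩ : ∃ k : Fin n, (k = g.1.1 ∨ k = g.1.2) ∧ rk n k = r := by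
      rcases le_total (rk n g.1.1) (rk n g.1.2) with h | h
      · rw [min_eq_left h] at hg1
        rw [max_eq_right h] at hg2
        rcases hr with rfl | rfl
        · exact ⟨g.1.1, Or.inl rfl, hg1⟩
        · exact ⟨g.1.2, Or.inr rfl, hg2⟩
      · rw [min_eq_right h] at hg1
        rw [max_eq_left h] at hg2
        rcases hr with rfl | rfl
        · exact ⟨g.1.2, Or.inr rfl, hg1⟩
        · exact ⟨g.1.1, Or.inl rfl, hg2⟩
    have h2 := le_label (vert0 n) (F := {y | y ∈ PP n ∧ l' y = c'}) (g := g)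
      (by rw [hgv]; exact hmem) k
    have h3 : expo g k = 1 := if_pos hk
    rw [h3, ← congrFun hlab k] at h2
    obtain ⟨g', hg', hk'⟩ := exists_of_label (vert0 n) h2
    obtain ⟨e3, e4⟩ := (hz _ _ (gen_dg g')).1 hg'.2
    have hd := gen_dg g'
    rcases le_total (rk n g'.1.1) (rk n g'.1.2) with h | h
    · rw [min_eq_left h, max_eq_right h] at hd
      rw [min_eq_left h] at e3
      rw [max_eq_right h] at e4
      rcases hk' with rfl | rfl
      · left
        rw [hkr] at hd e3
        exact ⟨_, hd, e3, e4⟩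
      · right
        rw [hkr] at hd e4
        exact ⟨_, hd, e3, e4⟩
    · rw [min_eq_right h, max_eq_left h] at hd
      rw [min_eq_right h] at e3
      rw [max_eq_left h] at e4
      rcases hk' with rfl | rfl
      · right
        rw [hkr] at hd e4
        exact ⟨_, hd, e3, e4⟩
      · left
        rw [hkr] at hd e3
        exact ⟨_, hd, e3, e4⟩)
  apply hFG.2
  rintro x ⟨hx, hlx⟩
  refine ⟨hx, face_sub h1' ?_ x hx hlx⟩
  intro i j hij h2
  obtain ⟨e1, e2⟩ := (hz' i j hij).1 h2
  exact (hz i j hij).2 (hmin i j hij e1 e2)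

open Pool.Agent.N360.JN in
theorem labelled {n : ℕ} (hn : 4 ≤ n) : IsLabelledPolytope (vert0 n) := by
  refine ⟨?_, ?_, ?_⟩
  · intro g g' h
    obtain ⟨h1, h2⟩ := vv_inj hn (gen_dg g) (gen_dg g') h
    obtain ⟨h3, h4⟩ := dp_inj ((dp_iff _ _).1 g.2) ((dp_iff _ _).1 g'.2) h1 h2
    exact Subtype.ext (Prod.ext (Fin.ext h3) (Fin.ext h4))
  · apply Subset.antisymm
    · unfold hull
      exact extremePoints_convexHull_subset
    · rw [hull_vert0]
      rintro _ ⟨g, rfl⟩
      exact extreme_vv hn (gen_dg g)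
  · rw [hull_vert0]
    exact interior_PP hn

/-- For every `n ≥ 4` there is an `(n-3)`-dimensional convex polytope, its vertices labelled
bijectively by the minimal generators of the Stanley-Reisner ideal `J_n` of the `n`-cycle, that
with the induced lcm labelling supports a minimal free resolution of `J_n`: every subcomplex of
faces with label `≤ σ` is empty or contractible, and faces `F ⊊ G` have different labels. -/
theorem result : ∀ n : ℕ, 4 ≤ n → ∃ vert : Gen n → EuclideanSpace ℝ (Fin (n - 3)),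
    IsLabelledPolytope vert ∧ SupportsResolution vert ∧ IsMinimal vert :=
  fun n hn => ⟨vert0 n, labelled hn, resolution hn, minimality hn⟩

end Pool.Agent.Results.MP_b816f8_co.PolytopalAllN
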